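import Pool.Agent.H92.KST.TargetsX

/-!
# Project KEW, NA1: Noether normalisation modulo `π`, lifted
-/

set_option autoImplicit false

universe u

namespace Pool.Agent.H11.KST

open Pool.Agent.H92.KST

theorem pf_NA1 : T_NA1.{u} := by
  intro A B _ _ _ _ _ _ hft π hπ hinj hnu
  have hJm : (Ideal.span {π} : Ideal A).IsMaximal :=
    PrincipalIdealRing.isMaximal_of_irreducible hπ
  let J : Ideal A := Ideal.span {π}
  let I : Ideal B := Ideal.span {algebraMap A B π}
  let k := A ⧸ J
  let _ : Field k := Ideal.Quotient.field J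
  have hJI : ∀ a ∈ J, ((Ideal.Quotient.mk I).comp (algebraMap A B)) a = 0 := by
    intro a ha
    obtain ⟨c, rfl⟩ := Ideal.mem_span_singleton.1 ha
    change Ideal.Quotient.mk I (algebraMap A B (π * c)) = 0
    rw [Ideal.Quotient.eq_zero_iff_mem, map_mul]
    exact Ideal.mul_mem_right _ _ (Ideal.mem_span_singleton_self _)
  let _ : Algebra k (B ⧸ I) := (Ideal.Quotient.lift J
    ((Ideal.Quotient.mk I).comp (algebraMap A B)) hJI).toAlgebra
  have hT : IsScalarTower A k (B ⧸ I) := IsScalarTower.of_algebraMap_eq fun a => rfl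
  have hft1 : Algebra.FiniteType A (B ⧸ I) :=
    hft.of_surjective (Ideal.Quotient.mkₐ A I) (Ideal.Quotient.mkₐ_surjective A I)
  have hft2 : Algebra.FiniteType k (B ⧸ I) := Algebra.FiniteType.of_restrictScalars_finiteType A k _
  have hI : I ≠ ⊤ := by
    intro h
    exact hnu (Ideal.span_singleton_eq_top.1 h)
  have hnt : Nontrivial (B ⧸ I) := Ideal.Quotient.nontrivial_iff.2 hI
  obtain ⟨s, gb, hgi, hgf⟩ := exists_finite_inj_algHom_of_fg k (B ⧸ I)
  choose t ht using fun i : Fin s => Ideal.Quotient.mk_surjective (I := I) (gb (MvPolynomial.X i))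
  let g : MvPolynomial (Fin s) A →ₐ[A] B := MvPolynomial.aeval t
  have hcomp : (Ideal.Quotient.mk I).comp g.toRingHom =
      gb.toRingHom.comp (MvPolynomial.map (Ideal.Quotient.mk J)) := by
    apply MvPolynomial.ringHom_ext
    · intro a
      change Ideal.Quotient.mk I (g (MvPolynomial.C a)) =
        gb (MvPolynomial.map (Ideal.Quotient.mk J) (MvPolynomial.C a))
      rw [MvPolynomial.map_C]
      have h1 : g (MvPolynomial.C a) = algebraMap A B a := g.commutes a
      have h2 : gb (MvPolynomial.C (Ideal.Quotient.mk J a)) =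
        algebraMap k (B ⧸ I) (Ideal.Quotient.mk J a) := gb.commutes _
      rw [h1, h2]
      rfl
    · intro i
      change Ideal.Quotient.mk I (g (MvPolynomial.X i)) =
        gb (MvPolynomial.map (Ideal.Quotient.mk J) (MvPolynomial.X i))
      rw [MvPolynomial.map_X, MvPolynomial.aeval_X, ht]
  refine ⟨s, g, ?_, ?_⟩
  · have hπB : algebraMap A B π ≠ 0 := by
      rw [Ne, map_eq_zero_iff _ hinj]
      exact hπ.ne_zero
    have step : ∀ G : MvPolynomial (Fin s) A, g G = 0 →
        ∃ G', G = MvPolynomial.C π * G' ∧ g G' = 0 := by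
      intro G hG
      have h1 : gb (MvPolynomial.map (Ideal.Quotient.mk J) G) = 0 := by
        have := congrArg (fun φ => φ G) hcomp
        change Ideal.Quotient.mk I (g G) = gb (MvPolynomial.map (Ideal.Quotient.mk J) G) at this
        rw [← this, hG, map_zero]
      have h2 : MvPolynomial.map (Ideal.Quotient.mk J) G = 0 :=
        (map_eq_zero_iff _ hgi).1 h1
      have h3 : MvPolynomial.C π ∣ G := by
        rw [MvPolynomial.C_dvd_iff_map_hom_eq_zero (Ideal.Quotient.mk J) π (by
          intro r
          rw [Ideal.Quotient.eq_zero_iff_mem, Ideal.mem_span_singleton])]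
        exact h2
      obtain ⟨G', hG'⟩ := h3
      refine ⟨G', hG', ?_⟩
      rw [hG', map_mul] at hG
      have h4 : g (MvPolynomial.C π) = algebraMap A B π := g.commutes π
      rw [h4] at hG
      exact (mul_eq_zero.1 hG).resolve_left hπB
    rw [injective_iff_map_eq_zero]
    intro G hG
    by_contra hne
    obtain ⟨i, hi⟩ := MvPolynomial.ne_zero_iff.1 hne
    have hall : ∀ (e : ℕ) (G : MvPolynomial (Fin s) A), g G = 0 → π ^ e ∣ G.coeff i := by
      intro e
      induction e with
      | zero => intro G _; rw [pow_zero]; exact one_dvd _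
      | succ e ih =>
        intro G hG
        obtain ⟨G', rfl, hG'⟩ := step G hG
        rw [MvPolynomial.coeff_C_mul, pow_succ']
        exact mul_dvd_mul_left π (ih G' hG')
    obtain ⟨n, u, hu⟩ := IsDiscreteValuationRing.eq_unit_mul_pow_irreducible hi hπ
    have h5 := hall (n + 1) G hG
    rw [hu] at h5
    obtain ⟨c, hc⟩ := h5
    have h6 : (u : A) = π * c := by
      have h7 : π ^ n ≠ 0 := pow_ne_zero _ hπ.ne_zero
      apply mul_right_cancel₀ h7
      rw [hc]
      ring
    apply hπ.not_isUnit
    exact isUnit_of_dvd_unit ⟨c, h6⟩ u.isUnit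
  · rw [hcomp]
    refine RingHom.Finite.comp hgf ?_
    exact RingHom.Finite.of_surjective _
      (MvPolynomial.map_surjective _ Ideal.Quotient.mk_surjective)

end Pool.Agent.H11.KST
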